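import Mathlib

set_option autoImplicit false

namespace Pool.Agent.H774R2.DB

/-- large constant, `β = exp (-LL)` -/
noncomputable def LL : ℝ := 1000000

theorem polyG (p : ℝ) :
    0 ≤ 982 / 1000 - p * (1 - p) * (361 / 100) - p * (2 - p) * (1145 / 1000 - 1805 / 1000 * p) ^ 2 := by
  nlinarith [sq_nonneg (p ^ 2 - 212990 / 130321 * p + 485 / 1000), sq_nonneg (p - 4026 / 10000)]

theorem psd {a b c : ℝ} (ha : 0 < a) (h : b ^ 2 ≤ a * c) (A B : ℝ) :
    0 ≤ a * A ^ 2 + c * B ^ 2 - 2 * b * A * B := by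
  have h1 : 0 ≤ a * (a * A ^ 2 + c * B ^ 2 - 2 * b * A * B) := by
    have : a * (a * A ^ 2 + c * B ^ 2 - 2 * b * A * B) =
      (a * A - b * B) ^ 2 + (a * c - b ^ 2) * B ^ 2 := by ring
    rw [this]
    have h2 : 0 ≤ a * c - b ^ 2 := by linarith
    positivity
  exact nonneg_of_mul_nonneg_right h1 ha

/-- completing the square, first form -/
theorem elimA {G t c v : ℝ} (hG : 1 < G) (ht : 0 ≤ t) :
    t * (c + v) ^ 2 ≤ t * G * c ^ 2 + (t * G / (G - 1)) * v ^ 2 := by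
  have hG1 : 0 < G - 1 := by linarith
  have h : t * G * c ^ 2 + (t * G / (G - 1)) * v ^ 2 - t * (c + v) ^ 2 =
      t * (G - 1) * (c - v / (G - 1)) ^ 2 := by
    field_simp
    ring
  have h2 : 0 ≤ t * (G - 1) * (c - v / (G - 1)) ^ 2 := by positivity
  linarith

/-- completing the square, second form -/
theorem elimB {G t c v r : ℝ} (hG : 0 < G) (h0 : t = 0 ∨ (G ≠ 1 ∧ r = t / (G - 1) ∧ 0 ≤ t * (G - 1)))
    (hr : 0 ≤ r) :
    0 ≤ t * (c ^ 2 - G⁻¹ * (c + v) ^ 2) + r * v ^ 2 := by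
  rcases h0 with h0 | ⟨h1, h2, h3⟩
  · subst h0
    have : 0 ≤ r * v ^ 2 := by positivity
    linarith
  · have hG1 : G - 1 ≠ 0 := sub_ne_zero.2 h1
    have h : t * (c ^ 2 - G⁻¹ * (c + v) ^ 2) + r * v ^ 2 =
        (t * (G - 1)) / G * (c - v / (G - 1)) ^ 2 := by
      rw [h2]
      field_simp
      ring
    rw [h]
    positivity

/-- bound from below of the exponential -/
theorem exp_ge {u : ℝ} (_ : 0 ≤ u) : 1 + u ≤ Real.exp u := by
  linarith [Real.add_one_le_exp u]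

theorem exp_ge4 {u : ℝ} (hu : 0 ≤ u) : (1 + u) ^ 4 ≤ Real.exp (4 * u) := by
  have h1 := exp_ge hu
  have h2 : Real.exp (4 * u) = Real.exp u ^ 4 := by
    rw [← Real.exp_nat_mul]; norm_num
  rw [h2]
  gcongr

/-- Existence of the quotient `(G - 1) / t` for `G = exp (2 L t)`, with its bounds -/
theorem lam_pos {t : ℝ} (ht : 0 ≤ t) :
    ∃ Λ : ℝ, t * (Real.exp (2 * LL * t) - 1) = t ^ 2 * Λ ∧ 2 * LL * (1 + t) ^ 3 ≤ Λ := by
  rcases ht.eq_or_lt with h | h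
  · subst h
    refine ⟨2 * LL, by simp, by norm_num⟩
  · refine ⟨(Real.exp (2 * LL * t) - 1) / t, by field_simp, ?_⟩
    rw [le_div_iff₀ h]
    have h1 := exp_ge4 (u := LL * t / 2) (by unfold LL; positivity)
    have h2 : 4 * (LL * t / 2) = 2 * LL * t := by ring
    rw [h2] at h1
    refine le_trans ?_ (sub_le_sub_right h1 1)
    unfold LL
    have h3 : 0 ≤ t ^ 2 := by positivity
    have h4 : 0 ≤ t ^ 3 := by positivity
    have h5 : 0 ≤ t ^ 4 := by positivity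
    nlinarith

theorem exR {s : ℝ} (hs : -1 ≤ s) :
    ∃ r : ℝ, 0 < r ∧ (s = 0 ∨ (Real.exp (2 * LL * s) ≠ 1 ∧ r = s / (Real.exp (2 * LL * s) - 1) ∧
      0 ≤ s * (Real.exp (2 * LL * s) - 1))) ∧ s * (Real.exp (2 * LL * s) - 1) = s ^ 2 * r⁻¹ ∧
      (s ≤ 0 → r ≤ -s + 1 / 2000000) ∧ (0 ≤ s → 2000000 * (1 + s) ^ 3 ≤ r⁻¹) := by
  have hLL : 0 < LL := by unfold LL; norm_num
  rcases lt_trichotomy s 0 with h | h | h
  · have hG : Real.exp (2 * LL * s) < 1 := by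
      rw [Real.exp_lt_one_iff]
      nlinarith
    have hG1 : Real.exp (2 * LL * s) - 1 < 0 := by linarith
    refine ⟨s / (Real.exp (2 * LL * s) - 1), div_pos_of_neg_of_neg h hG1,
      Or.inr ⟨hG.ne, rfl, by nlinarith⟩, ?_, ?_, fun h0 => absurd h0 (by linarith)⟩
    · field_simp
    · intro _
      have h1 := exp_ge (u := 2 * LL * (-s)) (by nlinarith)
      have h2 : Real.exp (2 * LL * s) * Real.exp (2 * LL * (-s)) = 1 := by
        rw [← Real.exp_add]; simp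
      have h3 : 0 < Real.exp (2 * LL * s) := Real.exp_pos _
      have h4 : Real.exp (2 * LL * s) * (1 + 2 * LL * (-s)) ≤ 1 := by
        calc Real.exp (2 * LL * s) * (1 + 2 * LL * (-s)) ≤
            Real.exp (2 * LL * s) * Real.exp (2 * LL * (-s)) := by gcongr
          _ = 1 := h2
      rw [div_le_iff_of_neg hG1]
      generalize Real.exp (2 * LL * s) = G at *
      unfold LL at h4
      linarith
  · subst h
    refine ⟨1 / 2000000, by norm_num, Or.inl rfl, by simp, by norm_num, by norm_num⟩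
  · have hG : 1 < Real.exp (2 * LL * s) := by
      rw [Real.one_lt_exp_iff]
      positivity
    have hG1 : 0 < Real.exp (2 * LL * s) - 1 := by linarith
    refine ⟨s / (Real.exp (2 * LL * s) - 1), div_pos h hG1,
      Or.inr ⟨hG.ne', rfl, by positivity⟩, ?_, fun h0 => absurd h0 (by linarith), ?_⟩
    · field_simp
    · intro _
      obtain ⟨Λ, h1, h2⟩ := lam_pos h.le
      have h3 : Λ = (s / (Real.exp (2 * LL * s) - 1))⁻¹ := by
        rw [inv_div, eq_div_iff h.ne']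
        have : s * (Λ * s) = s * (Real.exp (2 * LL * s) - 1) := by rw [h1]; ring
        exact mul_left_cancel₀ h.ne' this
      rw [← h3]
      refine le_trans (le_of_eq ?_) h2
      unfold LL
      ring

theorem T_bound {t : ℝ} (ht : 1 ≤ t) :
    1 < Real.exp (2 * LL * t) ∧
    t ≤ t * Real.exp (2 * LL * t) / (Real.exp (2 * LL * t) - 1) ∧
    t * Real.exp (2 * LL * t) / (Real.exp (2 * LL * t) - 1) ≤ t + 1 / 2000000 := by
  have hG : 1 + 2 * LL * t ≤ Real.exp (2 * LL * t) := exp_ge (by unfold LL; positivity)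
  have hG1 : 1 < Real.exp (2 * LL * t) := by
    unfold LL at hG ⊢
    nlinarith
  have hG2 : 0 < Real.exp (2 * LL * t) - 1 := by linarith
  refine ⟨hG1, ?_, ?_⟩
  · rw [le_div_iff₀ hG2]
    nlinarith
  · rw [div_le_iff₀ hG2]
    generalize Real.exp (2 * LL * t) = G at *
    unfold LL at hG
    linarith


/-- the key estimate for `-1 ≤ s ≤ 0`; `d = 1 / 2000000` -/
theorem poly_bound {s r T W : ℝ} (hs : -1 ≤ s) (h0 : s ≤ 0) (hr0 : 0 < r)
    (hr : r ≤ -s + 1 / 2000000) (hT1 : s + 2 ≤ T) (hT2 : T ≤ s + 2 + 1 / 2000000)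
    (hW : W = 1145 / 1000 + 1805 / 1000 * s) :
    17 / 1000 ≤ 1 - r * ((s + 1) * (361 / 100) + T * W ^ 2) := by
  have hW2 : W ≤ 1145 / 1000 := by rw [hW]; linarith
  have hW3 : -(66 / 100) ≤ W := by rw [hW]; linarith
  have hWW : W ^ 2 ≤ 1312 / 1000 := by nlinarith
  have hpoly := polyG (-s)
  have e1 : (1145 / 1000 - 1805 / 1000 * (-s)) = W := by rw [hW]; ring
  rw [e1] at hpoly
  have h1 : (s + 1) * (361 / 100) + T * W ^ 2 ≤
      (s + 1) * (361 / 100) + (s + 2 + 1 / 2000000) * W ^ 2 := by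
    gcongr
  have h2 : 0 ≤ (s + 1) * (361 / 100) + T * W ^ 2 := by
    have : 0 ≤ s + 1 := by linarith
    have : 0 ≤ T := by linarith
    positivity
  have h3 : r * ((s + 1) * (361 / 100) + T * W ^ 2) ≤
      (-s + 1 / 2000000) * ((s + 1) * (361 / 100) + (s + 2 + 1 / 2000000) * W ^ 2) := by
    gcongr
    linarith
  have h4 : (-s + 1 / 2000000) * ((s + 1) * (361 / 100) + (s + 2 + 1 / 2000000) * W ^ 2) =
    (-s * (1 - -s) * (361 / 100) + -s * (2 - -s) * W ^ 2) +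
      1 / 2000000 * ((s + 1) * (361 / 100) + (s + 2 + 1 / 2000000) * W ^ 2) +
      1 / 2000000 * (-s) * W ^ 2 := by ring
  have hW0 : 0 ≤ W ^ 2 := sq_nonneg W
  have h5a : (s + 2 + 1 / 2000000) * W ^ 2 ≤ 3 * (1312 / 1000) := by
    have : s + 2 + 1 / 2000000 ≤ 3 := by linarith
    gcongr
  have h5 : (s + 1) * (361 / 100) + (s + 2 + 1 / 2000000) * W ^ 2 ≤ 10 := by linarith
  have h6 : (-s) * W ^ 2 ≤ 1 * (1312 / 1000) := by
    have : -s ≤ 1 := by linarith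
    gcongr
  rw [h4] at h3
  linarith

theorem keyA_neg {s r T W Λ : ℝ} (hs : -1 ≤ s) (h0 : s ≤ 0) (hr0 : 0 < r)
    (hr : r ≤ -s + 1 / 2000000) (hT1 : s + 2 ≤ T) (hT2 : T ≤ s + 2 + 1 / 2000000)
    (hW : W = 1145 / 1000 + 1805 / 1000 * s) (hΛ : 2000000 ≤ Λ) :
    0 < r⁻¹ - (s + 1) * (361 / 100) - T * W ^ 2 ∧
      (19 / 10 * (1 + T * W)) ^ 2 ≤
        (r⁻¹ - (s + 1) * (361 / 100) - T * W ^ 2) * (Λ - T * (361 / 100)) := by
  have ha := poly_bound hs h0 hr0 hr hT1 hT2 hW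
  have hr4 : r ≤ 1001 / 1000 := by linarith
  have e2 : r⁻¹ - (s + 1) * (361 / 100) - T * W ^ 2 =
      r⁻¹ * (1 - r * ((s + 1) * (361 / 100) + T * W ^ 2)) := by
    field_simp
    ring
  have hri2 : 1000 / 1001 ≤ r⁻¹ := by
    rw [le_inv_comm₀ (by norm_num) hr0]
    norm_num
    linarith
  have hb : 16 / 1000 ≤ r⁻¹ - (s + 1) * (361 / 100) - T * W ^ 2 := by
    rw [e2]
    calc (16 / 1000 : ℝ) ≤ 1000 / 1001 * (17 / 1000) := by norm_num
      _ ≤ _ := by gcongr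
  refine ⟨by linarith, ?_⟩
  have hc : 1000000 ≤ Λ - T * (361 / 100) := by linarith
  have hW2 : W ≤ 1145 / 1000 := by rw [hW]; linarith
  have hW3 : -(66 / 100) ≤ W := by rw [hW]; linarith
  have hT0 : 0 ≤ T := by linarith
  have hT3 : T ≤ 21 / 10 := by linarith
  have h1 : T * W ≤ 3 := by
    calc T * W ≤ T * (1145 / 1000) := by gcongr
      _ ≤ 21 / 10 * (1145 / 1000) := by gcongr
      _ ≤ 3 := by norm_num
  have h2 : -2 ≤ T * W := by
    have : T * (-W) ≤ 21 / 10 * (66 / 100) := by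
      calc T * (-W) ≤ T * (66 / 100) := by gcongr; linarith
        _ ≤ 21 / 10 * (66 / 100) := by gcongr
    linarith
  have hd : (19 / 10 * (1 + T * W)) ^ 2 ≤ 100 := by
    have : (19 / 10 * (1 + T * W)) ^ 2 ≤ 10 ^ 2 := by
      apply sq_le_sq'
      · linarith
      · linarith
    linarith
  calc (19 / 10 * (1 + T * W)) ^ 2 ≤ 100 := hd
    _ ≤ 16 / 1000 * 1000000 := by norm_num
    _ ≤ _ := by gcongr

theorem keyA_pos {s r T W Λ : ℝ} (h0 : 0 ≤ s) (hr : 2000000 * (1 + s) ^ 3 ≤ r⁻¹)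
    (hT1 : s + 2 ≤ T) (hT2 : T ≤ s + 2 + 1 / 2000000)
    (hW : W = 1145 / 1000 + 1805 / 1000 * s) (hΛ : 2000000 * (1 + s) ^ 3 ≤ Λ) :
    0 < r⁻¹ - (s + 1) * (361 / 100) - T * W ^ 2 ∧
      (19 / 10 * (1 + T * W)) ^ 2 ≤
        (r⁻¹ - (s + 1) * (361 / 100) - T * W ^ 2) * (Λ - T * (361 / 100)) := by
  obtain ⟨u, hu⟩ : ∃ u, u = 1 + s := ⟨_, rfl⟩
  have hs : s = u - 1 := by linarith
  subst hs
  have hu1 : 1 ≤ u := by linarith
  have e : 1 + (u - 1) = u := by ring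
  rw [e] at hr hΛ
  have e' : u - 1 + 1 = u := by ring
  rw [e']
  have hW2 : W ≤ 2 * u := by rw [hW]; linarith
  have hW3 : 0 ≤ W := by rw [hW]; linarith
  have hT3 : T ≤ 3 * u := by linarith
  have hT4 : 0 ≤ T := by linarith
  have hTW : T * W ^ 2 ≤ 12 * u ^ 3 := by
    calc T * W ^ 2 ≤ (3 * u) * (2 * u) ^ 2 := by gcongr
      _ = 12 * u ^ 3 := by ring
  have hu3 : u ≤ u ^ 3 := le_self_pow₀ hu1 (by norm_num)
  have hu4 : 1 ≤ u ^ 3 := one_le_pow₀ hu1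
  have h1 : 1000000 * u ^ 3 ≤ r⁻¹ - u * (361 / 100) - T * W ^ 2 := by linarith
  have h2 : 1000000 * u ^ 3 ≤ Λ - T * (361 / 100) := by linarith
  have h7 : 0 < r⁻¹ - u * (361 / 100) - T * W ^ 2 := by linarith
  refine ⟨h7, ?_⟩
  have h4 : T * W ≤ 6 * u ^ 2 := by
    calc T * W ≤ (3 * u) * (2 * u) := by gcongr
      _ = 6 * u ^ 2 := by ring
  have h5 : 0 ≤ T * W := by positivity
  have h8 : 1 ≤ u ^ 2 := one_le_pow₀ hu1
  have h6 : (19 / 10 * (1 + T * W)) ^ 2 ≤ (14 * u ^ 2) ^ 2 := by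
    have h7 : 19 / 10 * (1 + T * W) ≤ 14 * u ^ 2 := by linarith
    gcongr
  calc (19 / 10 * (1 + T * W)) ^ 2 ≤ (14 * u ^ 2) ^ 2 := h6
    _ = 196 * (u ^ 2 * u ^ 2) := by ring
    _ ≤ 1000000000000 * (u ^ 3 * u ^ 3) := by
        have h8 : u ^ 2 ≤ u ^ 3 := pow_le_pow_right₀ hu1 (by norm_num)
        gcongr
        norm_num
    _ = (1000000 * u ^ 3) * (1000000 * u ^ 3) := by ring
    _ ≤ _ := by gcongr

/-- real form of the contraction inequality, `s ≥ -1` -/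
theorem realA {s : ℝ} (hs : -1 ≤ s) (a b c : ℝ) :
    s * a ^ 2 + (s + 1) * (b + s * (19 / 10) * a) ^ 2 +
      (s + 2) * (c + ((s + 1) * (19 / 10) * b + s * (1145 / 1000 + 1805 / 1000 * s) * a)) ^ 2 ≤
    s * Real.exp (2 * LL * s) * a ^ 2 + (s + 1) * Real.exp (2 * LL * (s + 1)) * b ^ 2 +
      (s + 2) * Real.exp (2 * LL * (s + 2)) * c ^ 2 := by
  obtain ⟨r, hr0, -, hr1, hr2, hr3⟩ := exR hs
  obtain ⟨Λ, hΛ1, hΛ2⟩ := lam_pos (t := s + 1) (by linarith)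
  obtain ⟨hT0, hT1, hT2⟩ := T_bound (t := s + 2) (by linarith)
  have hel := elimA (G := Real.exp (2 * LL * (s + 2))) (t := s + 2) (c := c)
    (v := ((s + 1) * (19 / 10) * b + s * (1145 / 1000 + 1805 / 1000 * s) * a)) hT0 (by linarith)
  generalize hT : (s + 2) * Real.exp (2 * LL * (s + 2)) / (Real.exp (2 * LL * (s + 2)) - 1) = T at *
  generalize hW : 1145 / 1000 + 1805 / 1000 * s = W at *
  generalize Real.exp (2 * LL * s) = G0 at *
  generalize Real.exp (2 * LL * (s + 1)) = G1 at *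
  generalize Real.exp (2 * LL * (s + 2)) = G2 at *
  have hΛ3 : 2000000 * (2 + s) ^ 3 ≤ Λ := by
    refine le_trans (le_of_eq ?_) hΛ2
    unfold LL; ring
  have key : 0 < r⁻¹ - (s + 1) * (361 / 100) - T * W ^ 2 ∧
      (19 / 10 * (1 + T * W)) ^ 2 ≤
        (r⁻¹ - (s + 1) * (361 / 100) - T * W ^ 2) * (Λ - T * (361 / 100)) := by
    rcases le_total s 0 with h0 | h0
    · refine keyA_neg hs h0 hr0 (hr2 h0) hT1 hT2 hW.symm ?_
      have : (1 : ℝ) ≤ (2 + s) ^ 3 := one_le_pow₀ (by linarith)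
      linarith
    · refine keyA_pos h0 (hr3 h0) hT1 hT2 hW.symm (le_trans ?_ hΛ3)
      gcongr
      norm_num
  have hp := psd key.1 (b := 19 / 10 * (1 + T * W)) (c := Λ - T * (361 / 100)) key.2 (s * a) ((s + 1) * b)
  have e3 : s * G0 * a ^ 2 = s * a ^ 2 + (s ^ 2 * r⁻¹) * a ^ 2 := by rw [← hr1]; ring
  have e4 : (s + 1) * G1 * b ^ 2 = (s + 1) * b ^ 2 + ((s + 1) ^ 2 * Λ) * b ^ 2 := by
    rw [← hΛ1]; ring
  rw [e3, e4]
  linarith


theorem exG {t : ℝ} (ht : 0 ≤ t) :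
    ∃ μ : ℝ, t * (1 - (Real.exp (2 * LL * t))⁻¹) = t ^ 2 * μ ∧ 1 ≤ μ * (t + 1 / 2000000) ∧
      0 < (Real.exp (2 * LL * t))⁻¹ ∧ (Real.exp (2 * LL * t))⁻¹ ≤ 1 ∧
      (Real.exp (2 * LL * t))⁻¹ * (t + 1 / 2000000) ≤ 1 / 2000000 ∧
      (Real.exp (2 * LL * t))⁻¹ * (2000000 * t ^ 4) ≤ 1 := by
  have hG : 1 + 2 * LL * t ≤ Real.exp (2 * LL * t) := exp_ge (by unfold LL; positivity)
  obtain ⟨Λ, hΛ1, hΛ2⟩ := lam_pos ht
  have hpos : 0 < Real.exp (2 * LL * t) := Real.exp_pos _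
  generalize Real.exp (2 * LL * t) = G at *
  have hG1 : 1 + 2000000 * t ≤ G := by unfold LL at hG; linarith
  have hG2 : 1 ≤ G := by linarith
  have h1 : G⁻¹ * (t + 1 / 2000000) ≤ 1 / 2000000 := by
    rw [inv_mul_le_iff₀ hpos]
    linarith
  have h2 : G⁻¹ * (2000000 * t ^ 4) ≤ 1 := by
    rw [inv_mul_le_iff₀ hpos, mul_one]
    rcases ht.eq_or_lt with h | h
    · rw [← h]; norm_num; exact hpos.le
    · have h3 : G - 1 = t * Λ := by
        have : t * (G - 1) = t * (t * Λ) := by rw [hΛ1]; ring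
        exact mul_left_cancel₀ h.ne' this
      have h4 : 2000000 * (1 + t) ^ 3 ≤ Λ := by
        refine le_trans (le_of_eq ?_) hΛ2
        unfold LL; ring
      have h5 : 2000000 * t ^ 4 ≤ t * Λ := by
        calc 2000000 * t ^ 4 = t * (2000000 * t ^ 3) := by ring
          _ ≤ t * (2000000 * (1 + t) ^ 3) := by gcongr; linarith
          _ ≤ t * Λ := by gcongr
      linarith
  rcases ht.eq_or_lt with h | h
  · refine ⟨2000000, ?_, ?_, inv_pos.2 hpos, inv_le_one_of_one_le₀ hG2, h1, h2⟩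
    · rw [← h]; ring
    · rw [← h]; norm_num
  · refine ⟨(1 - G⁻¹) / t, ?_, ?_, inv_pos.2 hpos, inv_le_one_of_one_le₀ hG2, h1, h2⟩
    · field_simp
    · rw [div_mul_eq_mul_div, le_div_iff₀ h]
      linarith

theorem core {a c D1 D2 N1 N2 b : ℝ} (hD1 : 0 < D1) (hD2 : 0 < D2) (h1 : N1 ≤ a * D1)
    (h2 : N2 ≤ c * D2) (hN1 : 0 < N1) (hN2 : 0 ≤ N2) (h : D1 * D2 * b ≤ N1 * N2) :
    0 < a ∧ b ≤ a * c := by
  refine ⟨?_, ?_⟩
  · have : 0 < a * D1 := by linarith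
    exact pos_of_mul_pos_left this hD1.le
  · have h3 : N1 * N2 ≤ (a * D1) * (c * D2) := by gcongr; linarith
    have h4 : D1 * D2 * b ≤ D1 * D2 * (a * c) := by
      calc D1 * D2 * b ≤ (a * D1) * (c * D2) := h.trans h3
        _ = D1 * D2 * (a * c) := by ring
    exact le_of_mul_le_mul_left h4 (by positivity)

theorem keyB_neg {s r μ n g W : ℝ} (hs : -1 ≤ s) (h0 : s ≤ 0) (hr0 : 0 < r)
    (hr : r ≤ -s + 1 / 2000000) (hμ : 1 ≤ μ * (s + 1 + 1 / 2000000))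
    (hn : 1 ≤ n * (s + 2 + 1 / 2000000)) (hg0 : 0 < g) (hg1 : g ≤ 1)
    (hg : g * (s + 1 + 1 / 2000000) ≤ 1 / 2000000)
    (hW : W = 1145 / 1000 + 1805 / 1000 * s) :
    0 < μ - r * (361 / 100) ∧
      (19 / 10 * (g + r * W)) ^ 2 ≤
        (μ - r * (361 / 100)) * (n - (s + 1) * g * (361 / 100) - r * W ^ 2) := by
  have hpb := poly_bound (T := s + 2 + 1 / 2000000) hs h0 hr0 hr (by linarith) le_rfl hW
  have hW2 : W ≤ 1145 / 1000 := by rw [hW]; linarith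
  have hW3 : -(66 / 100) ≤ W := by rw [hW]; linarith
  have hr1 : r ≤ 1001 / 1000 := by linarith
  obtain ⟨D1, hD1⟩ : ∃ D1, D1 = s + 1 + 1 / 2000000 := ⟨_, rfl⟩
  obtain ⟨D2, hD2⟩ : ∃ D2, D2 = s + 2 + 1 / 2000000 := ⟨_, rfl⟩
  rw [← hD1] at hμ hg
  rw [← hD2] at hn hpb
  have hs1 : s + 1 = D1 - 1 / 2000000 := by linarith
  have hs0 : 0 ≤ s + 1 := by linarith
  have hD10 : 0 < D1 := by linarith
  have hD20 : 0 < D2 := by linarith
  have hD21 : D2 ≤ 21 / 10 := by linarith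
  obtain ⟨P1, hP1⟩ : ∃ P1, P1 = r * (361 / 100) * D1 := ⟨_, rfl⟩
  obtain ⟨P2, hP2⟩ : ∃ P2, P2 = r * W ^ 2 * D2 := ⟨_, rfl⟩
  obtain ⟨P3, hP3⟩ : ∃ P3, P3 = (s + 1) * g * (361 / 100) * D2 := ⟨_, rfl⟩
  have hP10 : 0 ≤ P1 := by rw [hP1]; positivity
  have hP20 : 0 ≤ P2 := by rw [hP2]; positivity
  have hP30 : 0 ≤ P3 := by rw [hP3]; positivity
  have hP12 : 16 / 1000 ≤ 1 - P1 - P2 := by
    have e : 1 - P1 - P2 = 1 - r * ((s + 1) * (361 / 100) + D2 * W ^ 2) -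
        r * (361 / 100) * (1 / 2000000) := by
      rw [hP1, hP2, hs1]; ring
    rw [e]
    linarith
  have hP31 : P3 ≤ 1 / 1000 := by
    have h1 : (s + 1) * g ≤ 1 / 2000000 := by
      calc (s + 1) * g ≤ g * D1 := by
            rw [mul_comm]; gcongr; linarith
        _ ≤ _ := hg
    rw [hP3]
    calc (s + 1) * g * (361 / 100) * D2 ≤ 1 / 2000000 * (361 / 100) * (21 / 10) := by gcongr
      _ ≤ _ := by norm_num
  refine core (D1 := D1) (D2 := D2) (N1 := 1 - P1) (N2 := 1 - P2 - P3) hD10 hD20 ?_ ?_ ?_ ?_ ?_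
  · rw [hP1]; linarith
  · rw [hP2, hP3]; linarith
  · linarith
  · linarith
  · have e1 : D1 * D2 * (19 / 10 * (g + r * W)) ^ 2 =
        361 / 100 * D2 * (g * D1) * (g + 2 * r * W) + P1 * P2 := by
      rw [hP1, hP2]; ring
    have e2 : (1 - P1) * (1 - P2 - P3) = (1 - P1 - P2) - P3 + P1 * P2 + P1 * P3 := by ring
    rw [e1, e2]
    have h3 : g + 2 * r * W ≤ 4 := by
      have : r * W ≤ 1001 / 1000 * (1145 / 1000) := by
        calc r * W ≤ r * (1145 / 1000) := by gcongr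
          _ ≤ _ := by gcongr
      linarith
    have h4 : 361 / 100 * D2 * (g * D1) * (g + 2 * r * W) ≤
        361 / 100 * (21 / 10) * (1 / 2000000) * 4 := by
      calc 361 / 100 * D2 * (g * D1) * (g + 2 * r * W) ≤ 361 / 100 * D2 * (g * D1) * 4 := by gcongr
        _ ≤ _ := by gcongr
    have h5 : 0 ≤ P1 * P3 := by positivity
    linarith

theorem keyB_pos {s r μ n g W : ℝ} (h0 : 0 ≤ s) (hr0 : 0 < r)
    (hr : 2000000 * (1 + s) ^ 3 ≤ r⁻¹) (hμ : 1 ≤ μ * (s + 1 + 1 / 2000000))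
    (hn : 1 ≤ n * (s + 2 + 1 / 2000000)) (hg0 : 0 < g)
    (hg : g * (2000000 * (s + 1) ^ 4) ≤ 1)
    (hW : W = 1145 / 1000 + 1805 / 1000 * s) :
    0 < μ - r * (361 / 100) ∧
      (19 / 10 * (g + r * W)) ^ 2 ≤
        (μ - r * (361 / 100)) * (n - (s + 1) * g * (361 / 100) - r * W ^ 2) := by
  obtain ⟨u, hu⟩ : ∃ u, u = s + 1 := ⟨_, rfl⟩
  have hs : s = u - 1 := by linarith
  subst hs
  have hu1 : 1 ≤ u := by linarith
  have e1 : 1 + (u - 1) = u := by ring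
  have e2 : u - 1 + 1 = u := by ring
  have e3 : u - 1 + 2 = u + 1 := by ring
  rw [e1] at hr
  rw [e2] at hμ hg ⊢
  rw [e3] at hn
  have hW2 : W ≤ 2 * u := by rw [hW]; linarith
  have hW3 : 0 ≤ W := by rw [hW]; linarith
  have hr1 : r * u ^ 3 ≤ 1 / 2000000 := by
    have h1 : r * (2000000 * u ^ 3) ≤ r * r⁻¹ := by gcongr
    rw [mul_inv_cancel₀ hr0.ne'] at h1
    linarith
  have hg2 : g * u ^ 4 ≤ 1 / 2000000 := by linarith
  have hD10 : 0 < u + 1 / 2000000 := by linarith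
  have hD20 : 0 < u + 1 + 1 / 2000000 := by linarith
  have hD1 : u + 1 / 2000000 ≤ 2 * u := by linarith
  have hD2 : u + 1 + 1 / 2000000 ≤ 3 * u := by linarith
  have hP1 : r * (361 / 100) * (u + 1 / 2000000) ≤ 1 / 1000 := by
    calc r * (361 / 100) * (u + 1 / 2000000) ≤ r * 4 * (2 * u) := by gcongr; norm_num
      _ = 8 * (r * u) := by ring
      _ ≤ 8 * (r * u ^ 3) := by gcongr; exact le_self_pow₀ hu1 (by norm_num)
      _ ≤ 8 * (1 / 2000000) := by gcongr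
      _ ≤ _ := by norm_num
  have hP2 : r * W ^ 2 * (u + 1 + 1 / 2000000) ≤ 1 / 1000 := by
    calc r * W ^ 2 * (u + 1 + 1 / 2000000) ≤ r * (2 * u) ^ 2 * (3 * u) := by gcongr
      _ = 12 * (r * u ^ 3) := by ring
      _ ≤ 12 * (1 / 2000000) := by gcongr
      _ ≤ _ := by norm_num
  have hP3 : u * g * (361 / 100) * (u + 1 + 1 / 2000000) ≤ 1 / 1000 := by
    calc u * g * (361 / 100) * (u + 1 + 1 / 2000000) ≤ u * g * 4 * (3 * u) := by gcongr; norm_num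
      _ = 12 * (g * u ^ 2) := by ring
      _ ≤ 12 * (g * u ^ 4) := by
          gcongr
          norm_num
      _ ≤ 12 * (1 / 2000000) := by gcongr
      _ ≤ _ := by norm_num
  refine core (D1 := u + 1 / 2000000) (D2 := u + 1 + 1 / 2000000) (N1 := 1 / 2) (N2 := 1 / 2)
    hD10 hD20 ?_ ?_ ?_ ?_ ?_
  · linarith
  · linarith
  · norm_num
  · norm_num
  · have h1 : g + r * W ≤ 1 / 2000000 * (3 / u) := by
      have h2 : (g + r * W) * u ≤ 3 / 2000000 := by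
        have h3 : g * u ≤ g * u ^ 4 := by gcongr; exact le_self_pow₀ hu1 (by norm_num)
        have h4 : r * W * u ≤ 2 * (r * u ^ 3) := by
          calc r * W * u ≤ r * (2 * u) * u := by gcongr
            _ = 2 * (r * u ^ 2) := by ring
            _ ≤ 2 * (r * u ^ 3) := by
              gcongr
              norm_num
        linarith
      rw [mul_div_assoc', le_div_iff₀ (by linarith)]
      linarith
    have h2 : 0 ≤ g + r * W := by positivity
    calc (u + 1 / 2000000) * (u + 1 + 1 / 2000000) * (19 / 10 * (g + r * W)) ^ 2 ≤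
        (2 * u) * (3 * u) * (2 * (1 / 2000000 * (3 / u))) ^ 2 := by gcongr; norm_num
      _ = 216 / 2000000 ^ 2 := by field_simp; norm_num
      _ ≤ 1 / 2 * (1 / 2) := by norm_num

/-- real form of the contraction inequality for the dual index, `s ≥ -1` -/
theorem realB {s : ℝ} (hs : -1 ≤ s) (c0 c1 c2 : ℝ) :
    0 ≤ s * (c2 ^ 2 - (Real.exp (2 * LL * s))⁻¹ * (c2 + ((s + 1) * (19 / 10) * c1 +
        (s + 2) * (1145 / 1000 + 1805 / 1000 * s) * c0)) ^ 2) +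
      (s + 1) * (c1 ^ 2 - (Real.exp (2 * LL * (s + 1)))⁻¹ * (c1 + (s + 2) * (19 / 10) * c0) ^ 2) +
      (s + 2) * (1 - (Real.exp (2 * LL * (s + 2)))⁻¹) * c0 ^ 2 := by
  obtain ⟨r, hr0, hr4, -, hr2, hr3⟩ := exR hs
  obtain ⟨μ, hμ1, hμ2, hg0, hg1, hg2, hg3⟩ := exG (t := s + 1) (by linarith)
  obtain ⟨n, hn1, hn2, -, -, -, -⟩ := exG (t := s + 2) (by linarith)
  have hel := elimB (G := Real.exp (2 * LL * s)) (t := s) (c := c2)
    (v := ((s + 1) * (19 / 10) * c1 + (s + 2) * (1145 / 1000 + 1805 / 1000 * s) * c0)) (r := r)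
    (Real.exp_pos _) hr4 hr0.le
  generalize hW : 1145 / 1000 + 1805 / 1000 * s = W at *
  generalize (Real.exp (2 * LL * s))⁻¹ = g0 at *
  generalize (Real.exp (2 * LL * (s + 1)))⁻¹ = g1 at *
  generalize (Real.exp (2 * LL * (s + 2)))⁻¹ = g2 at *
  have key : 0 < μ - r * (361 / 100) ∧
      (19 / 10 * (g1 + r * W)) ^ 2 ≤
        (μ - r * (361 / 100)) * (n - (s + 1) * g1 * (361 / 100) - r * W ^ 2) := by
    rcases le_total s 0 with h0 | h0
    · exact keyB_neg hs h0 hr0 (hr2 h0) hμ2 hn2 hg0 hg1 hg2 hW.symm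
    · exact keyB_pos h0 hr0 (hr3 h0) hμ2 hn2 hg0 hg3 hW.symm
  have hp := psd key.1 (b := 19 / 10 * (g1 + r * W)) key.2 ((s + 1) * c1) ((s + 2) * c0)
  have e3 : (s + 1) * (c1 ^ 2 - g1 * (c1 + (s + 2) * (19 / 10) * c0) ^ 2) =
      ((s + 1) ^ 2 * μ) * c1 ^ 2 - 2 * (19 / 10) * g1 * ((s + 1) * c1) * ((s + 2) * c0) -
        (s + 1) * g1 * (361 / 100) * ((s + 2) * c0) ^ 2 := by
    rw [← hμ1]; ring
  have e4 : (s + 2) * (1 - g2) * c0 ^ 2 = ((s + 2) ^ 2 * n) * c0 ^ 2 := by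
    rw [← hn1]
  rw [e3, e4]
  linarith

end Pool.Agent.H774R2.DB
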