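import Pool.Agent.Helper671.UP.ArcArea
import Pool.Agent.Helper671.UP.ArcRoot

set_option autoImplicit false
open Complex Set Filter Metric Topology

namespace Pool.Agent.H774R2.DB

open Pool.Agent.Helper671.UP.Arc

/-- no univalent function `z + (19/10) z ^ 2 + (59/20) z ^ 3 + ...` -/
theorem excluded {f : ℂ → ℂ} (hf : InS f) {a : ℕ → ℂ} (ha : PS a f)
    (h2 : a 2 = 19 / 10) (h3 : a 3 = 59 / 20) : False := by
  obtain ⟨s, hs⟩ := exists_root hf
  obtain ⟨σ, hσ⟩ := exists_PS hs.1
  have e0 : σ 0 = 1 := by rw [← hσ.zero, hs.2.1]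
  have a0 : a 0 = 0 := by rw [← ha.zero, hf.2.2.1]
  have a1 : a 1 = 1 := by rw [← ha.deriv_zero, hf.2.2.2]
  have hX : PS (fun n => if n = 1 then 1 else 0) (fun z => z) := by
    have := PS_pow 1
    simpa using this
  -- relation between the coefficients
  have hL := ha.mul (hσ.mul hσ)
  have hLR : PS (cv a (cv σ σ)) (fun z => z) := by
    apply hL.congr
    intro z hz
    have hzb : z ∈ ball (0 : ℂ) 1 := by simpa using hz
    have h2 := hs.2.2.2 z hzb
    linear_combination h2
  have hu := hLR.unique hX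
  have u2 := congrFun hu 2
  have u3 := congrFun hu 3
  simp only [cv, Finset.sum_range_succ, Finset.sum_range_zero] at u2 u3
  norm_num at u2 u3
  rw [a0, a1, h2, e0] at u2
  rw [a0, a1, h2, h3, e0] at u3
  have s1 : σ 1 = -(19 / 20) := by linear_combination u2 / 2
  rw [s1] at u3
  have s2 : σ 2 = -(97 / 800) := by linear_combination u3 / 2
  -- the even function
  have hsq : ∀ w : ℂ, ‖w‖ < 1 → ‖w ^ 2‖ < 1 := fun w hw => by
    rw [norm_pow]; exact pow_lt_one₀ (norm_nonneg _) hw two_ne_zero
  have hh : DifferentiableOn ℂ (fun w => s (w ^ 2)) (ball (0 : ℂ) 1) := by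
    refine hs.1.comp (by fun_prop) ?_
    intro w hw
    simpa using hsq w (by simpa using hw)
  have hK : PS (fun k => if Even k then σ (k / 2) else 0) (fun w => s (w ^ 2)) := by
    intro w hw
    have h1 := hσ (w ^ 2) (hsq w hw)
    have hinj : Function.Injective (fun j : ℕ => 2 * j) := fun a b h => by
      have : 2 * a = 2 * b := h
      omega
    rw [← hinj.hasSum_iff]
    · convert h1 using 1
      funext j
      simp only [Function.comp_apply, even_two_mul, if_true]
      rw [show 2 * j / 2 = j by omega, pow_mul]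
    · intro x hx
      have : ¬ Even x := by
        intro he
        obtain ⟨j, rfl⟩ := he
        exact hx ⟨j, by ring⟩
      simp only [if_neg this, zero_mul]
  have n1 : ¬ Even 1 := by decide
  have n2 : Even 2 := by decide
  have n3 : ¬ Even 3 := by decide
  have n4 : Even 4 := by decide
  have n5 : ¬ Even 5 := by decide
  have n6 : Even 6 := by decide
  -- first inequality
  have hA := area_poly (fun w => s (w ^ 2)) hh (by simp [hs.2.1]) (root_inj hf hs)
    Polynomial.X 1 _ _ hK (by
      intro w hw hw1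
      simp) 7 (by norm_num)
  simp only [Finset.sum_range_succ, Finset.sum_range_zero] at hA
  simp only [Nat.cast_zero, Nat.cast_one, Nat.cast_ofNat, Even.zero, if_true, Nat.zero_div, e0,
    if_neg n1, if_pos n2, if_neg n3, if_pos n4, if_neg n5, if_pos n6] at hA
  norm_num at hA
  rw [s1, s2] at hA
  norm_num at hA
  -- second inequality
  set κ0 : ℕ → ℂ := fun k => if Even k then σ (k / 2) else 0 with hκ0
  have hK3 := ((hK.mul (hK.mul hK)).add ((PS_pow 2).mul (hK.const_mul 10)))
  have hB := area_poly (fun w => s (w ^ 2)) hh (by simp [hs.2.1]) (root_inj hf hs)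
    (Polynomial.X ^ 3 + Polynomial.C 10 * Polynomial.X) 3 _ _ hK3 (by
      intro w hw hw1
      simp only [Polynomial.eval_add, Polynomial.eval_mul, Polynomial.eval_pow, Polynomial.eval_X,
        Polynomial.eval_C]
      field_simp) 7 (by norm_num)
  simp only [Finset.sum_range_succ, Finset.sum_range_zero, cv, hκ0] at hB
  simp only [Nat.cast_zero, Nat.cast_one, Nat.cast_ofNat, Even.zero, if_true, Nat.zero_div, e0,
    if_neg n1, if_pos n2, if_neg n3, if_pos n4, if_neg n5, if_pos n6] at hB
  norm_num [n1, n2, n3, n4, n5, n6] at hB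
  rw [s1, s2] at hB
  have e3 : σ 3 + -(19 / 20) * -(97 / 800) + -(97 / 800) * -(19 / 20) + σ 3 +
      -(19 / 20) * (-(97 / 800) + -(19 / 20) * -(19 / 20) + -(97 / 800)) +
      -(97 / 800) * (-(19 / 20) + -(19 / 20)) + σ 3 + 10 * -(97 / 800) =
      3 * σ 3 - ((1103 / 800 : ℝ) : ℂ) := by
    push_cast
    ring
  rw [e3] at hB
  norm_num at hB
  set c : ℝ := ‖σ 3‖ with hc
  set d : ℝ := ‖3 * σ 3 - 1103 / 800‖ with hd
  have hc0 : 0 ≤ c := norm_nonneg _
  have hd0 : 0 ≤ d := norm_nonneg _
  have htri : (1103 / 800 : ℝ) ≤ 3 * c + d := by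
    have h1 : ‖(1103 / 800 : ℂ)‖ = 1103 / 800 := by norm_num
    have h2 : (1103 / 800 : ℂ) = 3 * σ 3 - (3 * σ 3 - 1103 / 800) := by ring
    calc (1103 / 800 : ℝ) = ‖(1103 / 800 : ℂ)‖ := h1.symm
      _ = ‖3 * σ 3 - (3 * σ 3 - 1103 / 800)‖ := by rw [← h2]
      _ ≤ ‖3 * σ 3‖ + ‖3 * σ 3 - 1103 / 800‖ := norm_sub_le _ _
      _ = 3 * c + d := by rw [norm_mul]; norm_num [hc, hd]
  have hc1 : c < 104 / 1000 := by
    by_contra hcon
    push Not at hcon
    nlinarith
  have hd1 : d < 1 := by
    by_contra hcon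
    push Not at hcon
    nlinarith
  linarith

end Pool.Agent.H774R2.DB
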