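import Pool.Agent.H774R2.DB.Contr
import Pool.Agent.H774R2.DB.Excl

set_option autoImplicit false
open Complex Set Filter Metric Topology

namespace Pool.Agent.H774R2.DB

theorem realC (s a b c : ℝ) :
    s * a ^ 2 + (s + 1) * (b + s * (19 / 10) * a) ^ 2 +
      (s + 2) * (c + ((s + 1) * (19 / 10) * b + s * (1145 / 1000 + 1805 / 1000 * s) * a)) ^ 2 ≤
    s * Real.exp (2 * LL * s) * a ^ 2 + (s + 1) * Real.exp (2 * LL * (s + 1)) * b ^ 2 +
      (s + 2) * Real.exp (2 * LL * (s + 2)) * c ^ 2 := by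
  rcases le_total (-1) s with h | h
  · exact realA h a b c
  · have hB := realB (s := -2 - s) (by linarith) a (b + s * (19 / 10) * a)
      (c + ((s + 1) * (19 / 10) * b + s * (1145 / 1000 + 1805 / 1000 * s) * a))
    have e0 : (Real.exp (2 * LL * (-2 - s)))⁻¹ = Real.exp (2 * LL * (s + 2)) := by
      rw [← Real.exp_neg]; congr 1; ring
    have e1 : (Real.exp (2 * LL * (-2 - s + 1)))⁻¹ = Real.exp (2 * LL * (s + 1)) := by
      rw [← Real.exp_neg]; congr 1; ring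
    have e2 : (Real.exp (2 * LL * (-2 - s + 2)))⁻¹ = Real.exp (2 * LL * s) := by
      rw [← Real.exp_neg]; congr 1; ring
    rw [e0, e1, e2] at hB
    have f0 : c + ((s + 1) * (19 / 10) * b + s * (1145 / 1000 + 1805 / 1000 * s) * a) +
        ((-2 - s + 1) * (19 / 10) * (b + s * (19 / 10) * a) +
        (-2 - s + 2) * (1145 / 1000 + 1805 / 1000 * (-2 - s)) * a) = c := by ring
    have f1 : b + s * (19 / 10) * a + (-2 - s + 2) * (19 / 10) * a = b := by ring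
    rw [f0, f1] at hB
    linarith

theorem norm_sq_eq (z : ℂ) : ‖z‖ ^ 2 = z.re ^ 2 + z.im ^ 2 := by
  rw [← Complex.normSq_eq_norm_sq, Complex.normSq_apply]; ring

theorem contr (s : ℝ) (a b c : ℂ) :
    s * ‖a‖ ^ 2 + (s + 1) * ‖b + ((s * (19 / 10) : ℝ) : ℂ) * a‖ ^ 2 +
      (s + 2) * ‖c + ((((s + 1) * (19 / 10) : ℝ) : ℂ) * b +
        ((s * (1145 / 1000 + 1805 / 1000 * s) : ℝ) : ℂ) * a)‖ ^ 2 ≤
    s * Real.exp (2 * LL * s) * ‖a‖ ^ 2 + (s + 1) * Real.exp (2 * LL * (s + 1)) * ‖b‖ ^ 2 +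
      (s + 2) * Real.exp (2 * LL * (s + 2)) * ‖c‖ ^ 2 := by
  have h1 := realC s a.re b.re c.re
  have h2 := realC s a.im b.im c.im
  simp only [norm_sq_eq, add_re, add_im, re_ofReal_mul, im_ofReal_mul]
  linarith

/-- the data: `B = β z + (19/10) β z ^ 2 + (59/20) β z ^ 3`, `β = exp (-L)` -/
noncomputable def bb : ℕ → ℂ
  | 1 => ((Real.exp (-LL) : ℝ) : ℂ)
  | 2 => 19 / 10 * ((Real.exp (-LL) : ℝ) : ℂ)
  | 3 => 59 / 20 * ((Real.exp (-LL) : ℝ) : ℂ)
  | _ => 0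

theorem bb1 : bb 1 = ((Real.exp (-LL) : ℝ) : ℂ) := rfl
theorem bb1_re : (bb 1).re = Real.exp (-LL) := by rw [bb1, ofReal_re]
theorem bb1_ne : bb 1 ≠ 0 := by
  rw [bb1]
  exact_mod_cast (Real.exp_pos _).ne'

theorem poly_eq : (∑ k ∈ Finset.Ico 1 3, Polynomial.C (bb (k + 1) / bb 1) * Polynomial.X ^ k : Polynomial ℂ) =
    Polynomial.C (19 / 10) * Polynomial.X + Polynomial.C (59 / 20) * Polynomial.X ^ 2 := by
  have h : Finset.Ico 1 3 = {1, 2} := by decide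
  rw [h, Finset.sum_pair (by norm_num)]
  have e2 : bb (1 + 1) / bb 1 = 19 / 10 := by
    have : bb (1 + 1) = 19 / 10 * bb 1 := rfl
    rw [this, mul_div_assoc, div_self bb1_ne, mul_one]
  have e3 : bb (2 + 1) / bb 1 = 59 / 20 := by
    have : bb (2 + 1) = 59 / 20 * bb 1 := rfl
    rw [this, mul_div_assoc, div_self bb1_ne, mul_one]
  rw [e2, e3, pow_one]


theorem gpow (s : ℝ) (z : ℂ) :
    Real.exp (2 * LL * s) * ‖z * (((Real.exp (-LL) ^ s : ℝ)) : ℂ)‖ ^ 2 = ‖z‖ ^ 2 := by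
  have h : Real.exp (-LL) ^ s = Real.exp (-(LL * s)) := by
    rw [← Real.exp_mul]; congr 1; ring
  rw [h, norm_mul, mul_pow, Complex.norm_real, Real.norm_of_nonneg (Real.exp_pos _).le,
    ← Real.exp_nat_mul]
  have : Real.exp (2 * LL * s) * Real.exp (((2 : ℕ) : ℝ) * -(LL * s)) = 1 := by
    rw [← Real.exp_add]
    have : 2 * LL * s + ((2 : ℕ) : ℝ) * -(LL * s) = 0 := by push_cast; ring
    rw [this, Real.exp_zero]
  linear_combination ‖z‖ ^ 2 * this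

theorem local_contraction (r : ℕ) (hr : r = 3) (ν : ℝ) (a : ℕ → ℂ) :
    ∑ m ∈ Finset.Icc 1 r, (ν + (m : ℝ)) *
          ‖∑ n ∈ Finset.Icc 1 m, a n * ((((bb 1).re ^ (ν + (n : ℝ)) : ℝ)) : ℂ) *
            ∑ j ∈ Finset.range (m - n + 1),
              (∏ i ∈ Finset.range j, ((((ν + (n : ℝ)) : ℝ) : ℂ) - (i : ℂ))) / ((j.factorial : ℕ) : ℂ) *
              ((∑ k ∈ Finset.Ico 1 r, Polynomial.C (bb (k + 1) / bb 1) * Polynomial.X ^ k) ^ j).coeff (m - n)‖ ^ 2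
        ≤ ∑ n ∈ Finset.Icc 1 r, (ν + (n : ℝ)) * ‖a n‖ ^ 2 := by
  subst hr
  rw [poly_eq, bb1_re]
  set p : Polynomial ℂ := Polynomial.C (19 / 10) * Polynomial.X + Polynomial.C (59 / 20) * Polynomial.X ^ 2
    with hp
  have c1 : p.coeff 1 = 19 / 10 := by
    rw [hp]; simp [Polynomial.coeff_X_pow]
  have c2 : p.coeff 2 = 59 / 20 := by
    rw [hp]; simp [Polynomial.coeff_X_pow]
  have c0 : p.coeff 0 = 0 := by
    rw [hp]; simp
  have q2 : (p ^ 2).coeff 2 = 361 / 100 := by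
    rw [pow_two, Polynomial.coeff_mul, Finset.Nat.sum_antidiagonal_eq_sum_range_succ_mk]
    simp only [Finset.sum_range_succ, Finset.sum_range_zero]
    norm_num [c0, c1, c2]
  have S3 : ∀ F : ℕ → ℝ, ∑ m ∈ Finset.Icc 1 3, F m = F 1 + F 2 + F 3 := by
    intro F
    have h3 : Finset.Icc 1 3 = ({1, 2, 3} : Finset ℕ) := by decide
    rw [h3, Finset.sum_insert (by decide), Finset.sum_pair (by decide)]
    ring
  have C3 : ∀ F : ℕ → ℂ, ∑ m ∈ Finset.Icc 1 3, F m = F 1 + F 2 + F 3 := by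
    intro F
    have h3 : Finset.Icc 1 3 = ({1, 2, 3} : Finset ℕ) := by decide
    rw [h3, Finset.sum_insert (by decide), Finset.sum_pair (by decide)]
    ring
  have C2 : ∀ F : ℕ → ℂ, ∑ m ∈ Finset.Icc 1 2, F m = F 1 + F 2 := by
    intro F
    have h3 : Finset.Icc 1 2 = ({1, 2} : Finset ℕ) := by decide
    rw [h3, Finset.sum_pair (by decide)]
  have C1 : ∀ F : ℕ → ℂ, ∑ m ∈ Finset.Icc 1 1, F m = F 1 := by
    intro F
    simp
  rw [S3, S3, C1, C2, C3]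
  simp only [Finset.sum_range_succ, Finset.sum_range_zero, Finset.prod_range_succ,
    Finset.prod_range_zero, Nat.sub_self, Nat.factorial, pow_zero, pow_one, zero_add,
    Polynomial.coeff_one, Nat.reduceSub, Nat.reduceAdd, c1, c2, q2]
  have hc := contr (ν + 1) (a 1 * (((Real.exp (-LL) ^ (ν + 1) : ℝ)) : ℂ))
    (a 2 * (((Real.exp (-LL) ^ (ν + 2) : ℝ)) : ℂ)) (a 3 * (((Real.exp (-LL) ^ (ν + 3) : ℝ)) : ℂ))
  have e1 : ν + 1 + 1 = ν + 2 := by ring
  have e2 : ν + 1 + 2 = ν + 3 := by ring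
  rw [e1, e2, mul_assoc (ν + 1), mul_assoc (ν + 2), mul_assoc (ν + 3), gpow, gpow, gpow] at hc
  have n1 : ν + ((1 : ℕ) : ℝ) = ν + 1 := by norm_num
  have n2 : ν + ((2 : ℕ) : ℝ) = ν + 2 := by norm_num
  have n3 : ν + ((3 : ℕ) : ℝ) = ν + 3 := by norm_num
  rw [n1, n2, n3]
  refine le_trans (le_of_eq ?_) hc
  congr 1
  · congr 1
    · congr 3
      simp
    · congr 3
      push_cast
      simp
      ring
  · congr 3
    push_cast
    simp
    ring

theorem final : ¬ (∀ r : ℕ, 1 ≤ r → ∀ b : ℕ → ℂ, (b 1 = (((b 1).re : ℝ) : ℂ)) → 0 < (b 1).re →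
      (∀ ν : ℝ, ∀ a : ℕ → ℂ,
        ∑ m ∈ Finset.Icc 1 r, (ν + (m : ℝ)) *
          ‖∑ n ∈ Finset.Icc 1 m, a n * ((((b 1).re ^ (ν + (n : ℝ)) : ℝ)) : ℂ) *
            ∑ j ∈ Finset.range (m - n + 1),
              (∏ i ∈ Finset.range j, ((((ν + (n : ℝ)) : ℝ) : ℂ) - (i : ℂ))) / ((j.factorial : ℕ) : ℂ) *
              ((∑ k ∈ Finset.Ico 1 r, Polynomial.C (b (k + 1) / b 1) * Polynomial.X ^ k) ^ j).coeff (m - n)‖ ^ 2
        ≤ ∑ n ∈ Finset.Icc 1 r, (ν + (n : ℝ)) * ‖a n‖ ^ 2) →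
      ∃ B : ℂ → ℂ, DifferentiableOn ℂ B (Metric.ball (0 : ℂ) 1) ∧
        Set.InjOn B (Metric.ball (0 : ℂ) 1) ∧
        Set.MapsTo B (Metric.ball (0 : ℂ) 1) (Metric.ball (0 : ℂ) 1) ∧
        B 0 = 0 ∧
        ∀ n ∈ Finset.Icc 1 r, iteratedDeriv n B 0 / ((n.factorial : ℕ) : ℂ) = b n) := by
  intro h
  obtain ⟨B, hd, hi, -, h0, hc⟩ := h 3 (by norm_num) bb (by rw [bb1_re, bb1])
    (by rw [bb1_re]; exact Real.exp_pos _) (local_contraction 3 rfl)
  have c1 := hc 1 (by decide)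
  have c2 := hc 2 (by decide)
  have c3 := hc 3 (by decide)
  have hβ := bb1_ne
  set β : ℂ := bb 1 with hβd
  have b2 : bb 2 = 19 / 10 * β := rfl
  have b3 : bb 3 = 59 / 20 * β := rfl
  rw [b2] at c2
  rw [b3] at c3
  have hdB : iteratedDeriv 1 B 0 = β := by simpa using c1
  have hdB' : deriv B 0 = β := by rw [← iteratedDeriv_one]; exact hdB
  -- the normalised function
  set f : ℂ → ℂ := fun z => β⁻¹ * B z with hf
  have hfd : DifferentiableOn ℂ f (ball (0 : ℂ) 1) := hd.const_mul _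
  have hBat : DifferentiableAt ℂ B 0 := hd.differentiableAt (ball_mem_nhds _ one_pos)
  have hfS : Pool.Agent.Helper671.UP.Arc.InS f := by
    refine ⟨hfd, ?_, ?_, ?_⟩
    · intro x hx y hy hxy
      apply hi hx hy
      exact mul_left_cancel₀ (inv_ne_zero hβ) hxy
    · simp [hf, h0]
    · have : HasDerivAt f (β⁻¹ * deriv B 0) 0 := hBat.hasDerivAt.const_mul _
      rw [this.deriv, hdB', inv_mul_cancel₀ hβ]
  have hPS : Pool.Agent.Helper671.UP.Arc.PS (fun n => β⁻¹ * (iteratedDeriv n B 0 / ((n.factorial : ℕ) : ℂ))) f := by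
    intro z hz
    have h := Complex.hasSum_taylorSeries_on_ball (r := (1 : NNReal)) (c := (0 : ℂ)) (z := z) (f := B)
      (by simpa using hd) (by simpa using hz)
    simp only [sub_zero, smul_eq_mul] at h
    have h2 := h.mul_left β⁻¹
    have e : (fun n : ℕ => β⁻¹ * (iteratedDeriv n B 0 / ((n.factorial : ℕ) : ℂ)) * z ^ n) =
        fun i : ℕ => β⁻¹ * (((i.factorial : ℕ) : ℂ)⁻¹ * (z ^ i * iteratedDeriv i B 0)) := by
      funext n
      rw [div_eq_mul_inv]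
      ring
    show HasSum (fun n : ℕ => β⁻¹ * (iteratedDeriv n B 0 / ((n.factorial : ℕ) : ℂ)) * z ^ n) (β⁻¹ * B z)
    rw [e]
    exact h2
  refine excluded hfS hPS ?_ ?_
  · rw [c2]
    field_simp
  · rw [c3]
    field_simp

end Pool.Agent.H774R2.DB
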